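import Pool.Agent.H71.CL.Hyp
import Pool.Agent.H51.F4.Hc

/-!
# [H71 CL LCS] the clause with the lower central series for a set `C` of elements of least index

`T` the subgroup generated by `C`, `T ∩ γ_k(G) = 1`: the lower bound over the fields which contain enough roots of unity and have `G` as a
Galois group (as `H51.F4.ht_all`).
-/

set_option autoImplicit false

open scoped NumberField
open IsDedekindDomain Filter Topology H38.ML
open scoped Classical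

noncomputable section

namespace H71.CL

open H63.MA H38.BB H38.BG H57.PC H57.BRA H63.BU H77.PC3 H57.CC H38.AS H77.S0T H77.AB H77.GN
  H77.UX H77.FLD H77.PLF H51.PF H51.NS H51.F3 H12.S3 H51.HC H86.HT

theorem hlowc {n : ℕ} (G : Subgroup (Equiv.Perm (Fin n))) (K : IntermediateField ℚ QBar)
    [NumberField K] (hn : 2 ≤ n) (hG : MulAction.IsPretransitive G (Fin n)) {p : ℕ} [NeZero p]
    (hp : p.Prime) (hp2 : MOne p K) {ζ : K} (hζ : IsPrimitiveRoot ζ p) {M : ℕ} {z₂ : K}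
    (hz2 : IsPrimitiveRoot z₂ (p ^ M)) {N : ℕ} {P H : Type} [Group P] [Group H]
    (Q : HX p N G P H) (hP : IsPGroup p P) (hPo : PPosT p M Q.cP (Tc Q.cP)) (hU : PUb p M Q.cP)
    (hI : ∀ h : G, (∃ i, IsConj h (Q.cl.g i)) → ind (h : Equiv.Perm (Fin n)) = indG G)
    (φ₀ : Gal(QBar/K) →* G) (hs : Function.Surjective φ₀) (hφ₀ : FT φ₀) :
    ∃ c B₀ : ℝ, 0 < c ∧ ∀ B : ℝ, B₀ ≤ B →
      ((⌈c * B ^ (1 / (indG G : ℝ)) * Real.log B ^ (N - 1)⌉₊ : ℕ) : ℕ∞) ≤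
        Spec.nK K QBar G B := by
  obtain ⟨ha, -, -, -, -⟩ := pidx_pos hn G hG
  obtain ⟨D, hD, hun⟩ := ard (Ω := QBar) hp hp2 hζ φ₀ hφ₀ (Nat.card G) Nat.card_pos
  obtain ⟨L⟩ := exists_LDs QBar hp hζ D.toRD0
  obtain ⟨Q', hLQ⟩ := H51.AC2.dp_of L
  have hu : ∀ v, v ∉ D.S0 → ∀ τ ∈ inr L v, φ₀ τ = 1 := fun v hv τ hτ => hun L v hv τ hτ
  refine cfl hn G hG ha K D.toRD0 L Q.cl.g (fun h i hi => hI h ⟨i, hi⟩) ?_
  obtain ⟨c₀, hc₀, hev⟩ := hPo K ζ hζ z₂ hz2 D L Q' hLQ (Q.pr.comp φ₀) (ft_comp _ _ hφ₀)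
    (Q.prs.comp hs) fun v hv τ hτ => by rw [MonoidHom.comp_apply, hu v hv τ hτ, map_one]
  obtain ⟨X₁, hX₁⟩ := eventually_atTop.1 hev
  refine ⟨c₀, max X₁ 3, hc₀, le_max_right _ _, fun X hX => ?_⟩
  have hsy := syh hp hζ Q hP L Q' φ₀ hφ₀ (Q.phs.comp hs)
    (fun v hv τ hτ => by rw [hu v hv τ hτ, map_one]) X
  have hfin : (SYH L Q' Q φ₀ X).Finite := hsy.2
    ((pu_fin hζ hz2 hU D L X).subset (syt_sub L Q' Q.cP (Tc Q.cP) _ X))
  refine ⟨hfin.toFinset, ?_, fun φ hφ => ?_⟩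
  · have h1 := hX₁ X ((le_max_left _ _).trans hX)
    rw [← hsy.1, Set.ncard_eq_toFinset_card _ hfin] at h1
    rw [mul_assoc]
    exact h1
  · rw [Set.Finite.mem_toFinset] at hφ
    have h1 := syt_sub L Q' Q.cl Q.ph.ker φ₀ X hφ.1
    -- on the inertia groups outside `S0` the orders are powers of `p`
    have hpI : ∀ v, v ∉ D.S0 → ∀ τ ∈ inr L v, ∃ k : ℕ, φ τ ^ (p ^ k) = 1 := by
      intro v hv τ hτ
      obtain ⟨k, hk⟩ := hP (Q.pr (φ τ))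
      refine ⟨k, Q.inj _ _ (by rw [map_pow, hk, map_one]) ?_⟩
      have h2 : Q.ph (φ τ) = 1 := by
        have h3 := DFunLike.congr_fun hφ.2 τ
        rw [MonoidHom.comp_apply, MonoidHom.comp_apply, hu v hv τ hτ, map_one] at h3
        exact h3
      rw [map_pow, h2, one_pow, map_one]
    refine ⟨h1.1, h1.2.1, H35.AC.nfs L ∅ φ, fun v hv => ((H35.AC.mem_nfs h1 v).1 hv).1, ?_,
      fun v hv => ?_, fun v hv hv2 => ?_⟩
    · have h2 := H35.AC.nfs_AF h1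
      rw [mem_AF] at h2
      exact h2
    · obtain ⟨h2, h3, h4⟩ := (H35.AC.mem_nfs h1 v).1 hv
      rcases h1.2.2.1 v h2 h3 with h5 | ⟨i, hi⟩
      · exact absurd (h5 _ (H35.AC.lt_mem L h2)) h4
      · exact ⟨i, φ (L.t v), hi.2.1, (H48.MF.ing_inr hp hζ L h2 φ h1.1 (hpI v h2)).1⟩
    · have h2 : φ (L.t v) = 1 := by
        by_contra h3
        exact hv2 ((H35.AC.mem_nfs h1 v).2 ⟨hv, Finset.notMem_empty v, h3⟩)
      exact (H48.MF.ing_inr hp hζ L hv φ h1.1 (hpI v hv)).2.2 h2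

/-- a normal subgroup of `p`-power index with trivial intersection with `T` -/
theorem n0c {G : Type} [Group G] [Finite G] (C : Set G) (k : ℕ)
    (hk : Subgroup.closure C ⊓ (⊤ : Subgroup G).lowerCentralSeries k = ⊥) {p : ℕ} (hp : p.Prime)
    (hne : C.Nonempty) (h1C : ∀ h ∈ C, h ≠ 1) (hL : ∀ h ∈ C, h ^ p = 1) : ∃ N₀ : Subgroup G, N₀.Normal ∧
      (∀ x : G, ∃ j : ℕ, x ^ p ^ j ∈ N₀) ∧ N₀ ⊓ Subgroup.closure C = ⊥ := by
  have : Fact p.Prime := ⟨hp⟩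
  have hnil := nil_quot (G := G) k
  obtain ⟨π, hπ⟩ : ∃ π : G →* G ⧸ (⊤ : Subgroup G).lowerCentralSeries k,
      π = QuotientGroup.mk' _ := ⟨_, rfl⟩
  have hker : ∀ x : G, π x = 1 → x ∈ (⊤ : Subgroup G).lowerCentralSeries k := by
    intro x hx
    rw [hπ] at hx
    exact (QuotientGroup.eq_one_iff _).1 hx
  have hinj : ∀ x ∈ Subgroup.closure C, π x = 1 → x = 1 := by
    intro x hx h
    have h3 : x ∈ Subgroup.closure C ⊓ (⊤ : Subgroup G).lowerCentralSeries k := ⟨hx, hker x h⟩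
    rwa [hk, Subgroup.mem_bot] at h3
  obtain ⟨S⟩ : Nonempty (Sylow p (G ⧸ (⊤ : Subgroup G).lowerCentralSeries k)) := inferInstance
  -- `T` is a `p`-group
  have hTp : IsPGroup p (Subgroup.closure C) := by
    have h1 : Subgroup.closure C ≤ (S : Subgroup (G ⧸ (⊤ : Subgroup G).lowerCentralSeries k)).comap π := by
      rw [Subgroup.closure_le]
      intro h hh
      exact nil_mem hnil hp S ⟨1, by rw [pow_one, ← map_pow, hL h hh, map_one]⟩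
    rintro ⟨x, hx⟩
    obtain ⟨j, hj⟩ := S.isPGroup' ⟨π x, h1 hx⟩
    refine ⟨j, Subtype.ext ?_⟩
    have h2 : π (x ^ p ^ j) = 1 := by
      rw [map_pow]
      exact congrArg Subtype.val hj
    exact hinj _ ((Subgroup.closure C).pow_mem hx _) h2
  obtain ⟨g₀, hg₀⟩ := hne
  have hpd : p ∣ Nat.card (G ⧸ (⊤ : Subgroup G).lowerCentralSeries k) := by
    have h3 : orderOf (π g₀) = p := orderOf_eq_prime (by rw [← map_pow, hL g₀ hg₀, map_one])
      fun h => h1C g₀ hg₀ (hinj g₀ (Subgroup.subset_closure hg₀) h)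
    rw [← h3]
    exact orderOf_dvd_natCard _
  obtain ⟨f, -, hf⟩ := nil_split hnil hp hpd S
  refine ⟨(f.comp π).ker, inferInstance, fun x => ?_, ?_⟩
  · obtain ⟨j, hj⟩ := S.isPGroup' (f (π x))
    refine ⟨j, ?_⟩
    rw [MonoidHom.mem_ker, MonoidHom.comp_apply, map_pow, map_pow, hj]
  · rw [eq_bot_iff]
    rintro x ⟨hx1, hx2⟩
    rw [Subgroup.mem_bot]
    refine hinj x hx2 ?_
    have h1 := hf (π x) hx1
    obtain ⟨j, hj⟩ := hTp ⟨x, hx2⟩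
    have h2 : x ^ p ^ j = 1 := congrArg Subtype.val hj
    have h3 : orderOf (π x) ∣ p ^ j := orderOf_dvd_of_pow_eq_one (by rw [← map_pow, h2, map_one])
    obtain ⟨i, -, hi⟩ := (Nat.dvd_prime_pow hp).1 h3
    rcases Nat.eq_zero_or_pos i with h4 | h4
    · rw [h4, pow_zero] at hi
      exact orderOf_eq_one_iff.1 hi
    · exact absurd (hi ▸ dvd_pow_self p h4.ne') h1

/-- the clause with the lower central series -/
theorem low_lcs (n : ℕ) (hn : 2 ≤ n) (G : Subgroup (Equiv.Perm (Fin n)))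
    (hG : MulAction.IsPretransitive G (Fin n)) (C : Set G) (hCL : C ⊆ H88.LB.Lst G) (hne : C.Nonempty)
    (hcc : ∀ x ∈ C, ∀ g : G, g * x * g⁻¹ ∈ C) (k : ℕ)
    (hk : Subgroup.closure C ⊓ (⊤ : Subgroup G).lowerCentralSeries k = ⊥) :
    ∃ m : ℕ, 0 < m ∧ ∀ K : IntermediateField ℚ (AlgebraicClosure ℚ), ∀ _ : NumberField K,
      (∃ z : K, IsPrimitiveRoot z m) → Spec.IsGaloisGroup K (AlgebraicClosure ℚ) G → LowKC K G C := by
  have hTn : (Subgroup.closure C).Normal := closure_normal_of C hcc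
  obtain ⟨g₀, hg₀⟩ := hne
  obtain ⟨p, hpd⟩ : ∃ p, p = orderOf g₀ := ⟨_, rfl⟩
  have hp : p.Prime := by
    rw [hpd]
    exact H38.ML.prime_of_least G g₀ (hCL hg₀).1 (hCL hg₀).2
  have hL : ∀ h ∈ C, h ^ p = 1 := fun h hh => by
    rw [hpd, trg_cm hn G hG C hCL (fun q hq z hz hqz s hs =>
      nil_cmm (Subgroup.closure C) hTn k hk hq s z hs (Subgroup.subset_closure hz) hqz) g₀ h hg₀ hh]
    exact pow_orderOf_eq_one h
  obtain ⟨N₀, hN, hN₀, hNT⟩ := n0c C k hk hp ⟨g₀, hg₀⟩ (fun h hh => (hCL hh).1) hL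
  have : Fact p.Prime := ⟨hp⟩
  have : NeZero p := ⟨hp.ne_zero⟩
  obtain ⟨N, g, hr, uni, hI'⟩ := ncl_of G C hCL ⟨g₀, hg₀⟩ hcc
  have hgC : ∀ i, g i ∈ C := fun i => (hI' _).2 ⟨i, IsConj.refl _⟩
  have hcl : Subgroup.closure C = Subgroup.normalClosure (Set.range g) := by
    unfold Subgroup.normalClosure
    congr 1
    ext h
    rw [Group.mem_conjugatesOfSet_iff]
    constructor
    · intro hh
      obtain ⟨i, hi⟩ := (hI' h).1 hh
      exact ⟨g i, ⟨i, rfl⟩, hi.symm⟩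
    · rintro ⟨_, ⟨i, rfl⟩, hi⟩
      exact (hI' h).2 ⟨i, hi.symm⟩
  obtain ⟨N₁, hN₁, Q, hP, hQ, hph⟩ := exists_hx hp N₀ hN hN₀ g (fun i => hL _ (hgC i))
    (fun i => (hCL (hgC i)).1) uni (by rw [← hcl]; exact hNT)
  obtain ⟨M, hM, h₁⟩ := H51.F4.plf4 hp (H51.OW.apm4x p hp) (H35.UY.apu3u hp) (G ⧸ N₁) hP
  have hPL := h₁ N Q.cP hr
  have hcard : 0 < Nat.card G := Nat.card_pos
  have hp0 := hp.pos
  have hm : 0 < Nat.card G * p ^ M := by positivity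
  refine ⟨Nat.card G * p ^ M, hm, fun K hK hz hG' => ?_⟩
  obtain ⟨z, hz⟩ := hz
  have hz1 : IsPrimitiveRoot (z ^ (p ^ M)) (Nat.card G) := hz.pow hm (by ring)
  have hz2 : IsPrimitiveRoot (z ^ (Nat.card G)) (p ^ M) := hz.pow hm rfl
  obtain ⟨φ₀, hs, hφ₀⟩ : ∃ ρ : Gal(H38.ML.QBar/K) →* G, Function.Surjective ρ ∧ H38.ML.FT ρ := hG'
  have hp2 : MOne p K := mone_of hp hM hz2
  obtain ⟨ζ, hζ⟩ : ∃ ζ : K, IsPrimitiveRoot ζ p := by
    refine ⟨(z ^ (Nat.card G)) ^ p ^ (M - 1), hz2.pow (pow_pos hp.pos _) ?_⟩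
    rw [← pow_succ]
    congr 1
    omega
  have hβ : betaC K QBar G C = N := lbetc G K _ hz1 C g uni hI'
  unfold LowKC
  rw [hβ]
  refine hlowc G K hn hG hp hp2 hζ hz2 Q hP hPL.pos hPL.ub (fun h hh => ?_) φ₀ hs hφ₀
  rw [hQ] at hh
  exact (hCL ((hI' h).2 hh)).2

end H71.CL
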