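import Pool.Agent.H88.LB.Spec

/-!
# [H71 CL DEF] the lower bound with the power of the logarithm given by a set `C` of elements of least index

Definitions only.
-/

noncomputable section

namespace H71.CL

open H38.ML.Spec

/-- the number of `K`-conjugacy classes in the set `C` -/
def betaC (K Ω : Type) [Field K] [Field Ω] [Algebra K Ω] {n : ℕ} (G : Subgroup (Equiv.Perm (Fin n)))
    (C : Set G) : ℕ :=
  Nat.card (Quot fun g h : {g : G // g ∈ C} => KConj K Ω G g.1 h.1)

/-- There is `c > 0` with `n_K(G,B) ≥ c B^(1/ind(G)) (log B)^(β_K(C)-1)` for all large `B`. -/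
def LowKC (K : IntermediateField ℚ (AlgebraicClosure ℚ)) [NumberField K] {n : ℕ}
    (G : Subgroup (Equiv.Perm (Fin n))) (C : Set G) : Prop :=
  ∃ c B₀ : ℝ, 0 < c ∧ ∀ B : ℝ, B₀ ≤ B →
    ((⌈c * B ^ (1 / (indG G : ℝ)) *
      Real.log B ^ (betaC K (AlgebraicClosure ℚ) G C - 1)⌉₊ : ℕ) : ℕ∞) ≤
        nK K (AlgebraicClosure ℚ) G B

/-- The lower bound over all sufficiently large number fields. -/
def LowC {n : ℕ} (G : Subgroup (Equiv.Perm (Fin n))) (C : Set G) : Prop :=
  ∃ K₀ : IntermediateField ℚ (AlgebraicClosure ℚ), NumberField K₀ ∧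
    ∀ K : IntermediateField ℚ (AlgebraicClosure ℚ), ∀ _ : NumberField K, K₀ ≤ K → LowKC K G C

end H71.CL
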