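import Pool.Agent.H51.AG.Fin
import Pool.Agent.H71.CL.Def
import Pool.Agent.H77.AB.LCl

/-!
# [H71 CL AB] MP_b39724_nt, LowerBound: `low_ab` and `low_ag` for a set `C` of elements of least index

* `lbetc`: `β_K(C)` is the number of conjugacy classes in `C` if `K` contains a primitive `#G`-th root of unity.
* `low_mono`: the lower bound for a larger set gives that for `C`.
* `low_abc`: `T` normal with `T' ≤ N`, `N` a good tower, every element of `C` in `T` and of order prime to `#N`.
* `low_agc`: `T` the subgroup generated by `C` solvable, Sylow subgroups abelian.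
-/

set_option autoImplicit false

open scoped NumberField
open scoped Classical

noncomputable section

namespace H71.CL

open H38.ML.Spec H88.LB H38.ML

theorem kconj_isConj {n : ℕ} (G : Subgroup (Equiv.Perm (Fin n))) (K : IntermediateField ℚ QBar) (z : K)
    (hz : IsPrimitiveRoot z (Nat.card G)) (g h : G) : Spec.KConj K QBar G g h ↔ IsConj g h := by
  have h1 : Spec.KConj K QBar G g h ↔ H38.ML.KConj G K g h := Iff.rfl
  rw [h1, kconj_iff G K z hz g h, isConj_iff]
  constructor
  · rintro ⟨x, hx⟩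
    exact ⟨x, hx.symm⟩
  · rintro ⟨x, hx⟩
    exact ⟨x, hx.symm⟩

theorem lbetc {n : ℕ} (G : Subgroup (Equiv.Perm (Fin n))) (K : IntermediateField ℚ QBar) (z : K)
    (hz : IsPrimitiveRoot z (Nat.card G)) {N : ℕ} (C : Set G) (g : Fin N → G)
    (uni : ∀ i j, IsConj (g i) (g j) → i = j) (hI : ∀ h : G, h ∈ C ↔ ∃ i, IsConj h (g i)) :
    betaC K QBar G C = N := by
  have hk := kconj_isConj G K z hz
  have hmem : ∀ i, g i ∈ C := fun i => (hI (g i)).2 ⟨i, IsConj.refl _⟩
  unfold betaC
  have hcard : Nat.card (Fin N) =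
      Nat.card (Quot fun g h : {g : G // g ∈ C} => Spec.KConj K QBar G g.1 h.1) := by
    refine Nat.card_eq_of_bijective (fun i => Quot.mk _ ⟨g i, hmem i⟩) ⟨?_, ?_⟩
    · intro i j hij
      let P : Quot (fun g h : {g : G // g ∈ C} => Spec.KConj K QBar G g.1 h.1) → Prop :=
        Quot.lift (fun x => IsConj (g i) x.1) (by
          intro x y hxy
          have hxy' : IsConj x.1 y.1 := (hk _ _).1 hxy
          exact propext ⟨fun h => h.trans hxy', fun h => h.trans hxy'.symm⟩)
      have h1 : P (Quot.mk _ ⟨g i, hmem i⟩) := IsConj.refl _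
      have h2 : P (Quot.mk _ ⟨g j, hmem j⟩) := by
        have h3 : P (Quot.mk _ ⟨g i, hmem i⟩) = P (Quot.mk _ ⟨g j, hmem j⟩) :=
          congrArg P hij
        exact h3.mp h1
      exact uni i j h2
    · intro q
      induction q using Quot.ind with
      | mk x =>
        obtain ⟨i, hi⟩ := (hI x.1).1 x.2
        exact ⟨i, Quot.sound ((hk _ _).2 hi.symm)⟩
  rw [← hcard, Nat.card_eq_fintype_card, Fintype.card_fin]

theorem betaC_mono {n : ℕ} (G : Subgroup (Equiv.Perm (Fin n))) (K : IntermediateField ℚ QBar) (z : K)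
    (hz : IsPrimitiveRoot z (Nat.card G)) {C D : Set G} (h : C ⊆ D) :
    betaC K QBar G C ≤ betaC K QBar G D := by
  have hk := kconj_isConj G K z hz
  have hfin : Finite (Quot fun g h : {g : G // g ∈ D} => Spec.KConj K QBar G g.1 h.1) :=
    Finite.of_surjective (Quot.mk _) Quot.mk_surjective
  refine Nat.card_le_card_of_injective
    (Quot.map (fun g : {g : G // g ∈ C} => (⟨g.1, h g.2⟩ : {g : G // g ∈ D})) fun _ _ hab => hab) ?_
  intro x y hxy
  induction x using Quot.ind with
  | mk x =>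
    induction y using Quot.ind with
    | mk y =>
      refine Quot.sound ((hk _ _).2 ?_)
      let P : Quot (fun g h : {g : G // g ∈ D} => Spec.KConj K QBar G g.1 h.1) → Prop :=
        Quot.lift (fun w => IsConj x.1 w.1) (by
          intro a b hab
          have hab' : IsConj a.1 b.1 := (hk _ _).1 hab
          exact propext ⟨fun h => h.trans hab', fun h => h.trans hab'.symm⟩)
      have h1 : P (Quot.mk _ ⟨x.1, h x.2⟩) := IsConj.refl _
      have h3 : P (Quot.mk _ ⟨x.1, h x.2⟩) = P (Quot.mk _ ⟨y.1, h y.2⟩) := congrArg P hxy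
      exact h3.mp h1

/-- a set `C` of elements of least index with elements of order prime to `#N`: the case `T / N` abelian -/
theorem low_abc (n : ℕ) (hn : 2 ≤ n) (G : Subgroup (Equiv.Perm (Fin n)))
    (hG : MulAction.IsPretransitive G (Fin n)) (C : Set G) (hCL : C ⊆ Lst G) (hne : C.Nonempty)
    (T N : Subgroup G) (hT : T.Normal) (hN : N.Normal) (hTN : ⁅T, T⁆ ≤ N) (htower : Spec.GoodTower N)
    (hL : ∀ h ∈ C, h ∈ T ∧ Nat.Coprime (orderOf h) (Nat.card N)) : LowC G C := by
  obtain ⟨g₀, hg₀⟩ := hne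
  obtain ⟨K₁, hK₁, h⟩ := H38.ML.lower_bound hn G hG T N hT hN hTN
    (H38.ML.goodTower_of_spec htower)
    (H38.ML.realizable_of_spec (H36.RT.realizable_all (G ⧸ N)))
    ⟨⟨g₀, (hL g₀ hg₀).1, (hCL hg₀).1, (hCL hg₀).2, (hL g₀ hg₀).2⟩⟩
  obtain ⟨K₂, hK₂, h2⟩ := H38.BG.akn G
  have hK₂' : FiniteDimensional ℚ K₂ := hK₂.to_finiteDimensional
  have hfd' : FiniteDimensional ℚ ↥(K₁ ⊔ K₂) := IntermediateField.finiteDimensional_sup K₁ K₂
  refine ⟨K₁ ⊔ K₂, NumberField.of_module_finite ℚ _, fun K hKf hK => ?_⟩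
  obtain ⟨c, hc, B₀, hB⟩ := h K (le_trans le_sup_left hK) hKf.to_finiteDimensional
  obtain ⟨-, ⟨z, hz⟩, -⟩ := h2 K (le_trans le_sup_right hK) hKf
  have hβ : betaC K QBar G C ≤ H38.ML.beta G K T N :=
    betaC_mono G K z hz (D := {g : G | g ∈ T ∧ g ≠ 1 ∧ Spec.ind (g : Equiv.Perm (Fin n)) = Spec.indG G ∧
      Nat.Coprime (orderOf g) (Nat.card N)})
      fun x hx => ⟨(hL x hx).1, (hCL hx).1, (hCL hx).2, (hL x hx).2⟩
  refine ⟨c, max B₀ (Real.exp 1), hc, fun B hBB => ?_⟩
  refine le_trans ?_ ((hB B (le_trans (le_max_left _ _) hBB)).trans (H38.ML.nK_le_spec hn G K B))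
  have h1 : Real.exp 1 ≤ B := le_trans (le_max_right _ _) hBB
  have hB0 : 0 < B := lt_of_lt_of_le (Real.exp_pos 1) h1
  have hlog : 1 ≤ Real.log B := (Real.le_log_iff_exp_le hB0).2 h1
  have h3 : c * B ^ (1 / (Spec.indG G : ℝ)) * Real.log B ^ (betaC K QBar G C - 1) ≤
      c * B ^ (1 / (H38.ML.indG G : ℝ)) * Real.log B ^ (H38.ML.beta G K T N - 1) := by
    refine mul_le_mul_of_nonneg_left (pow_le_pow_right₀ hlog (Nat.sub_le_sub_right hβ 1)) ?_
    exact mul_nonneg hc.le (Real.rpow_nonneg hB0.le _)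
  exact_mod_cast Nat.ceil_mono h3

theorem closure_normal_of {G : Type} [Group G] (C : Set G) (hcc : ∀ x ∈ C, ∀ g : G, g * x * g⁻¹ ∈ C) :
    (Subgroup.closure C).Normal := by
  constructor
  intro x hx g
  induction hx using Subgroup.closure_induction with
  | mem y hy => exact Subgroup.subset_closure (hcc y hy g)
  | one => simp
  | mul a b _ _ ha hb =>
    have := Subgroup.mul_mem _ ha hb
    convert this using 1
    group
  | inv a _ ha =>
    have := Subgroup.inv_mem _ ha
    convert this using 1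
    group

/-- THEOREM A for `C` -/
theorem low_agc (n : ℕ) (hn : 2 ≤ n) (G : Subgroup (Equiv.Perm (Fin n)))
    (hG : MulAction.IsPretransitive G (Fin n)) (C : Set G) (hCL : C ⊆ Lst G) (hne : C.Nonempty)
    (hcc : ∀ x ∈ C, ∀ g : G, g * x * g⁻¹ ∈ C) (p : ℕ) (hp : p.Prime) (hL : ∀ h ∈ C, h ^ p = 1)
    (hsol : Group.IsSolvable (Subgroup.closure C))
    (hP : ∀ Q : Subgroup G, Q ≤ Subgroup.closure C → IsPGroup p Q → IsMulCommutative Q)
    (hQ : ∀ q : ℕ, q.Prime →
      q ∣ Nat.card (⁅Subgroup.closure C, Subgroup.closure C⁆ : Subgroup G) →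
      ∀ Q : Subgroup G, IsPGroup q Q → IsMulCommutative Q) : LowC G C := by
  obtain ⟨T, hTd⟩ : ∃ T : Subgroup G, T = Subgroup.closure C := ⟨_, rfl⟩
  have hTn : T.Normal := hTd ▸ closure_normal_of C hcc
  rw [← hTd] at hsol hP hQ
  have hcard : Nat.card (⁅T, T⁆ : Subgroup G) = Nat.card (commutator T) := by
    rw [← Subgroup.map_subtype_commutator T]
    exact Subgroup.card_map_of_injective T.subtype_injective
  have hpn : ¬ p ∣ Nat.card (⁅T, T⁆ : Subgroup G) := by
    rw [hcard]
    refine H51.AG.not_dvd_derived p hp hsol {x : T | (x : G) ∈ C} ?_ ?_ ?_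
    · refine Subgroup.map_injective T.subtype_injective ?_
      rw [← MonoidHom.range_eq_map, Subgroup.range_subtype, MonoidHom.map_closure]
      rw [hTd]
      refine congrArg Subgroup.closure ?_
      ext x
      constructor
      · rintro ⟨y, hy, rfl⟩
        exact hy
      · intro hx
        exact ⟨⟨x, Subgroup.subset_closure hx⟩, hx, rfl⟩
    · intro x hx
      exact Subtype.ext (hL x hx)
    · intro Q hQp x hx y hy
      have h1 : IsPGroup p (Q.map T.subtype) := hQp.map T.subtype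
      have h2 := hP (Q.map T.subtype) (by
        rintro _ ⟨z, -, rfl⟩
        exact z.2) h1
      have h3 := h2.is_comm.comm (⟨x, x, hx, rfl⟩ : Q.map T.subtype) ⟨y, y, hy, rfl⟩
      have h4 := congrArg Subtype.val h3
      exact Subtype.ext h4
  refine low_abc n hn G hG C hCL hne T ⁅T, T⁆ hTn inferInstance le_rfl ?_ ?_
  · refine H71.GT.goodTower_comm T hsol fun q hq hqd Q hQp x hx y hy => ?_
    have h3 := (hQ q hq hqd Q hQp).is_comm.comm (⟨x, hx⟩ : Q) ⟨y, hy⟩
    exact congrArg Subtype.val h3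
  · intro h hh
    refine ⟨hTd ▸ Subgroup.subset_closure hh, ?_⟩
    have h1 : orderOf h ∣ p := orderOf_dvd_of_pow_eq_one (hL h hh)
    exact Nat.Coprime.coprime_dvd_left h1 ((Nat.Prime.coprime_iff_not_dvd hp).2 hpn)

end H71.CL
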