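import Pool.Agent.H51.K2.B1
import Pool.Agent.H12.CF.Fin
import Pool.Agent.H71.CL.Ab

/-!
# [H71 CL BAS] from `BASE0`, `BASE1`, `BASE` for a set `C` of elements of least index to the lower bound `LowC`

`C` a nonempty set of elements of least index, closed under conjugation.
-/

set_option autoImplicit false

open scoped NumberField
open IsDedekindDomain H38.ML
open scoped Classical

noncomputable section

namespace H71.CL

open H63.MA H38.BB H38.BG H77.PC3 H88.LH H35.SN H77.GN H77.AB H71.KA H12.CF H51.K2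

theorem ncl_of {n : ℕ} (G : Subgroup (Equiv.Perm (Fin n))) (C : Set G) (hCL : C ⊆ H88.LB.Lst G)
    (hne : C.Nonempty) (hcc : ∀ x ∈ C, ∀ g : G, g * x * g⁻¹ ∈ C) :
    ∃ (r : ℕ) (g : Fin r → G), 1 ≤ r ∧ (∀ i j, IsConj (g i) (g j) → i = j) ∧
      ∀ h, h ∈ C ↔ ∃ i, IsConj h (g i) := by
  obtain ⟨g₀, hg₀⟩ := hne
  obtain ⟨r, g, hgΛ, uni, hI⟩ := H77.GN.ncl G C (fun h hh => (hCL hh).1) (by
      intro h hh k hk
      obtain ⟨x, rfl⟩ := isConj_iff.1 hk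
      exact hcc h hh x)
  refine ⟨r, g, ?_, uni, hI⟩
  obtain ⟨i, -⟩ := (hI g₀).1 hg₀
  exact Nat.one_le_iff_ne_zero.2 fun h => by
    subst h
    exact i.elim0

theorem lowc_of_base0 (n : ℕ) (hn : 2 ≤ n) (G : Subgroup (Equiv.Perm (Fin n)))
    (hG : MulAction.IsPretransitive G (Fin n)) (C : Set G) (hCL : C ⊆ H88.LB.Lst G)
    (hne : C.Nonempty) (hcc : ∀ x ∈ C, ∀ g : G, g * x * g⁻¹ ∈ C)
    (hb : ∀ (r : ℕ), 1 ≤ r → ∀ g : Fin r → G, (∀ i j, IsConj (g i) (g j) → i = j) →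
      (∀ x, x ∈ C ↔ ∃ i, IsConj x (g i)) → BASE0 C r) : LowC G C := by
  obtain ⟨ha, -, -, -, -⟩ := pidx_pos hn G hG
  obtain ⟨r, g, hr, uni, hI⟩ := ncl_of G C hCL hne hcc
  obtain ⟨K₁, hK₁, h⟩ := hb r hr g uni hI
  obtain ⟨K₂, hK₂, h2⟩ := akn G
  have hK₁' : FiniteDimensional ℚ K₁ := hK₁.to_finiteDimensional
  have hK₂' : FiniteDimensional ℚ K₂ := hK₂.to_finiteDimensional
  have hfd' : FiniteDimensional ℚ ↥(K₁ ⊔ K₂) := IntermediateField.finiteDimensional_sup K₁ K₂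
  refine ⟨K₁ ⊔ K₂, NumberField.of_module_finite ℚ _, fun K hK hle => ?_⟩
  obtain ⟨-, ⟨z, hz⟩, -⟩ := h2 K (le_trans le_sup_right hle) hK
  obtain ⟨Q, S₀, c', Y₀, hc', h3, h7⟩ := h K hK (le_trans le_sup_left hle) ∅
  have hβ : betaC K QBar G C = r := lbetc G K z hz C g uni hI
  unfold LowKC
  rw [hβ]
  exact cfm hn G hG ha K Q S₀ ∅ C (fun h hh => (hCL hh).2) r c' Y₀ hc' h7

theorem lowc_of_base1 (n : ℕ) (hn : 2 ≤ n) (G : Subgroup (Equiv.Perm (Fin n)))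
    (hG : MulAction.IsPretransitive G (Fin n)) (C : Set G) (hCL : C ⊆ H88.LB.Lst G)
    (hne : C.Nonempty) (hcc : ∀ x ∈ C, ∀ g : G, g * x * g⁻¹ ∈ C)
    (hb : ∀ (r : ℕ), 1 ≤ r → ∀ g : Fin r → G, (∀ i j, IsConj (g i) (g j) → i = j) →
      (∀ x, x ∈ C ↔ ∃ i, IsConj x (g i)) → BASE1 C r) : LowC G C := by
  obtain ⟨ha, -, -, -, -⟩ := pidx_pos hn G hG
  obtain ⟨r, g, hr, uni, hI⟩ := ncl_of G C hCL hne hcc
  obtain ⟨K₁, hK₁, h⟩ := hb r hr g uni hI 0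
  obtain ⟨K₂, hK₂, h2⟩ := akn G
  have hK₁' : FiniteDimensional ℚ K₁ := hK₁.to_finiteDimensional
  have hK₂' : FiniteDimensional ℚ K₂ := hK₂.to_finiteDimensional
  have hfd' : FiniteDimensional ℚ ↥(K₁ ⊔ K₂) := IntermediateField.finiteDimensional_sup K₁ K₂
  refine ⟨K₁ ⊔ K₂, NumberField.of_module_finite ℚ _, fun K hK hle => ?_⟩
  obtain ⟨-, ⟨z, hz⟩, -⟩ := h2 K (le_trans le_sup_right hle) hK
  obtain ⟨Q, S₀, S', c', Y₀, hc', h3, h4, h5, h6, h7⟩ := h K hK (le_trans le_sup_left hle) ∅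
  have hβ : betaC K QBar G C = r := lbetc G K z hz C g uni hI
  unfold LowKC
  rw [hβ]
  exact cfm hn G hG ha K Q S₀ S' C (fun h hh => (hCL hh).2) r c' Y₀ hc' h7

theorem lowc_of_base (n : ℕ) (hn : 2 ≤ n) (G : Subgroup (Equiv.Perm (Fin n)))
    (hG : MulAction.IsPretransitive G (Fin n)) (C : Set G) (hCL : C ⊆ H88.LB.Lst G)
    (hne : C.Nonempty) (hcc : ∀ x ∈ C, ∀ g : G, g * x * g⁻¹ ∈ C)
    (hb : ∀ (r : ℕ), 1 ≤ r → ∀ g : Fin r → G, (∀ i j, IsConj (g i) (g j) → i = j) →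
      (∀ x, x ∈ C ↔ ∃ i, IsConj x (g i)) → BASE C r) : LowC G C :=
  lowc_of_base1 n hn G hG C hCL hne hcc fun r hr g uni hI => base_base1 (hb r hr g uni hI)

/-- `C = L`: the lower bound `Low` of `Pool/Agent/H88/LB/Spec.lean` -/
theorem lowc_lst {n : ℕ} (G : Subgroup (Equiv.Perm (Fin n))) : LowC G (H88.LB.Lst G) ↔ H88.LB.Low G :=
  Iff.rfl

/-- powers of an element of least index -/
theorem lst_pow {n : ℕ} (G : Subgroup (Equiv.Perm (Fin n))) {x : G} (hx : x ∈ H88.LB.Lst G) (j : ℕ)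
    (hj : Nat.Coprime j (orderOf x)) : x ^ j ∈ H88.LB.Lst G := by
  have hpx := H38.ML.prime_of_least G x hx.1 hx.2
  have hxp : (x : Equiv.Perm (Fin n)) ^ orderOf x = 1 := congrArg Subtype.val (pow_orderOf_eq_one x)
  obtain ⟨h1, h2⟩ := H88.LB.ind_pow hpx hxp (j := j)
    ((Nat.Prime.coprime_iff_not_dvd hpx).1 (Nat.coprime_comm.1 hj))
  refine ⟨fun h => ?_, h1.trans hx.2⟩
  exact h2 (fun h3 => hx.1 (Subtype.ext h3)) (congrArg Subtype.val h)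

end H71.CL
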