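import Pool.Agent.H51.SN.Fin
import Pool.Agent.H71.KA.Sp2
import Pool.Agent.H36.FR.Fin
import Pool.Agent.H51.K1.Fib
import Pool.Agent.H71.CL.Bas

/-!
# [H71 CL CFC] the case of solvable `⟨C⟩` without cubes
-/

set_option autoImplicit false

open scoped Classical

noncomputable section

namespace H71.CL

open H88.LH H88.LB H38.ML.Spec H12.CF

theorem st_c {n : ℕ} (hn : 2 ≤ n) (G : Subgroup (Equiv.Perm (Fin n)))
    (hG : MulAction.IsPretransitive G (Fin n)) (C : Set G) (hCL : C ⊆ Lst G)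
    (hcc : ∀ x ∈ C, ∀ g : G, g * x * g⁻¹ ∈ C)
    (hs : Group.IsSolvable (Subgroup.closure C))
    (hc : ∀ q : ℕ, q.Prime → q ∣ Nat.card (Subgroup.closure C) → ¬ q ^ 3 ∣ Nat.card G) :
    St (Fin n) C (Subgroup.closure C) := by
  obtain ⟨-, -, hle, hcj, -⟩ := H38.BG.pidx_pos hn G hG
  have hpr : ∀ x ∈ C, (orderOf x).Prime := by
    intro x hx
    exact H38.ML.prime_of_least G x (hCL hx).1 (hCL hx).2
  refine ⟨hpr, hcc, ?_, rfl, hs, hc⟩
  rintro x hx y hy
  rw [ix_ind G x (hpr x hx), ix_ind G y hy]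
  have hy1 : y ≠ 1 := by
    rintro rfl
    rw [orderOf_one] at hy
    exact Nat.not_prime_one hy
  have h1 := hle y hy1
  have h2 : ind (x : Equiv.Perm (Fin n)) = indG G := (hCL hx).2
  rw [h2]
  exact_mod_cast h1

/-- THEOREM K2 for `C`, the case of solvable `⟨C⟩` without cubes -/
theorem low_cfc (n : ℕ) (hn : 2 ≤ n) (G : Subgroup (Equiv.Perm (Fin n)))
    (hG : MulAction.IsPretransitive G (Fin n)) (C : Set G) (hCL : C ⊆ Lst G) (hne : C.Nonempty)
    (hcc : ∀ x ∈ C, ∀ g : G, g * x * g⁻¹ ∈ C)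
    (hs : Group.IsSolvable (Subgroup.closure C))
    (hc : ∀ q : ℕ, q.Prime → q ∣ Nat.card (Subgroup.closure C) → ¬ q ^ 3 ∣ Nat.card G) : LowC G C := by
  have S := st_c hn G hG C hCL hcc hs hc
  have : Nonempty (Fin n) := ⟨⟨0, by omega⟩⟩
  have hf : FaithfulSMul G (Fin n) := inferInstance
  obtain ⟨N, U, H⟩ := exists_nu S
  have hU : U.Normal := H.nU
  refine lowc_of_base0 n hn G hG C hCL hne hcc fun r hr g uni hI => ?_
  exact chain0 S.cj U (tow S H) (base_base0 (bar H51.SN.stpf (H71.KA.k2c Pool.Agent.H36.FR.fam2 H51.K1.fib)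
    S H r hr g uni hI))

end H71.CL
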