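import Pool.Agent.H71.CL.Mcc
import Pool.Agent.H51.HD.Gtz

/-!
# [H71 CL HYP] the hypercentral case for a set `C` of elements of least index: it is in the class `MC`
-/

set_option autoImplicit false

open scoped Classical

noncomputable section

namespace H71.CL

open H38.ML H77.UX H51.PF H86.HT H51.HD

/-- the elements of `C` have the same order if they commute with the elements of prime power order, prime to their order -/
theorem trg_cm {n : ℕ} (hn : 2 ≤ n) (G : Subgroup (Equiv.Perm (Fin n)))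
    (hG : MulAction.IsPretransitive G (Fin n)) (C : Set G) (hCL : C ⊆ H88.LB.Lst G)
    (hcm : ∀ (q : ℕ) (_ : q.Prime) (z : G), z ∈ C → ¬ q ∣ orderOf z →
      ∀ s : G, (∃ j : ℕ, s ^ q ^ j = 1) → s * z = z * s) (g g' : G) (hg0 : g ∈ C)
    (hg0' : g' ∈ C) : orderOf g = orderOf g' := by
  by_contra hne
  obtain ⟨hg, h⟩ := hCL hg0
  obtain ⟨hg', h'⟩ := hCL hg0'
  have hl := prime_of_least G g hg h
  have hl' := prime_of_least G g' hg' h'
  have ho : orderOf (g : Equiv.Perm (Fin n)) = orderOf g := Subgroup.orderOf_coe g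
  have ho' : orderOf (g' : Equiv.Perm (Fin n)) = orderOf g' := Subgroup.orderOf_coe g'
  have i1 := ind_prime (g : Equiv.Perm (Fin n)) (by rw [ho]; exact hl)
  have i2 := ind_prime (g' : Equiv.Perm (Fin n)) (by rw [ho']; exact hl')
  rw [ho] at i1
  rw [ho'] at i2
  have hn0 : n ≠ 0 := by omega
  change ind (g : Equiv.Perm (Fin n)) = indG G at h
  change ind (g' : Equiv.Perm (Fin n)) = indG G at h'
  set l := orderOf g with hldef
  set l' := orderOf g' with hldef'
  set I := indG G with hI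
  rw [h] at i1
  rw [h'] at i2
  set m := n - Fx (g : Equiv.Perm (Fin n)) with hm
  set v := n.factorization l with hv
  have hnl : l ^ v ∣ n := Nat.ordProj_dvd n l
  have hI0 : 0 < I := by
    rw [← h]
    exact ind_pos _ (fun h => hg (Subtype.ext h))
  have hll' : ¬ l ∣ l' := fun hd => hne ((Nat.prime_dvd_prime_iff_eq hl hl').1 hd)
  have d1 : l ^ v ∣ Fx (g' : Equiv.Perm (Fin n)) :=
    dvd_Fy hn0 hG hl g' (hcm l hl g' hg0' hll')
  have d2 : l ^ v ∣ l' * I := by
    rw [i2]
    exact Dvd.dvd.mul_left (Nat.dvd_sub hnl d1) _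
  have d3 : l ^ v ∣ I :=
    (Nat.Coprime.pow_left v ((Nat.Prime.coprime_iff_not_dvd hl).2 hll')).dvd_of_dvd_mul_left d2
  have hl1 : 1 < l := hl.one_lt
  have d4 : l ^ (v + 1) ∣ m := by
    have h1 : l ^ (v + 1) ∣ (l - 1) * m := by
      rw [← i1, pow_succ, mul_comm]
      exact Nat.mul_dvd_mul_left l d3
    have h2 : ¬ l ∣ l - 1 := fun hd => by
      have := Nat.le_of_dvd (by omega) hd
      omega
    exact (Nat.Coprime.pow_left (v + 1) ((Nat.Prime.coprime_iff_not_dvd hl).2 h2)).dvd_of_dvd_mul_left h1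
  have hm0 : m ≠ 0 := by
    intro h0
    rw [h0, mul_zero] at i1
    rcases Nat.mul_eq_zero.1 i1 with h1 | h1
    · omega
    · omega
  have hln : l * n ∣ m := by
    rw [← Nat.factorization_le_iff_dvd (by positivity) hm0]
    intro q
    by_cases hq : q.Prime
    · rw [Nat.factorization_mul (by omega) hn0, Finsupp.add_apply]
      by_cases hql : q = l
      · rw [hql, hl.factorization_self, ← hv]
        have := (hl.pow_dvd_iff_le_factorization hm0).1 d4
        omega
      · have h1 : l.factorization q = 0 := by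
          rw [Nat.Prime.factorization hl, Finsupp.single_apply, if_neg (Ne.symm hql)]
        rw [h1, zero_add]
        have h2 : q ^ n.factorization q ∣ m := by
          rw [hm]
          refine Nat.dvd_sub (Nat.ordProj_dvd n q) (dvd_Fy hn0 hG hq g (hcm q hq g hg0 ?_))
          rw [← hldef]
          exact fun hd => hql ((Nat.prime_dvd_prime_iff_eq hq hl).1 hd)
        exact (hq.pow_dvd_iff_le_factorization hm0).1 h2
    · rw [Nat.factorization_eq_zero_of_not_prime _ hq]
      exact Nat.zero_le _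
  have h1 := Nat.le_of_dvd (Nat.pos_of_ne_zero hm0) hln
  have h2 : m ≤ n := Nat.sub_le _ _
  nlinarith

/-- the elements of a set of elements of least index which generates a hypercentral subgroup have the same order -/
theorem trgzc {n : ℕ} (hn : 2 ≤ n) (G : Subgroup (Equiv.Perm (Fin n)))
    (hG : MulAction.IsPretransitive G (Fin n)) (C : Set G) (hCL : C ⊆ H88.LB.Lst G) (k : ℕ)
    (hk : Subgroup.closure C ≤ Subgroup.upperCentralSeries G k) (g g' : G) (hg0 : g ∈ C)
    (hg0' : g' ∈ C) : orderOf g = orderOf g' :=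
  trg_cm hn G hG C hCL (fun _ hq z hz hqz s hs =>
    hyp_cmm (Subgroup.closure C) k hk hq s z hs (Subgroup.subset_closure hz) hqz) g g' hg0 hg0'

/-- a hypercentral subgroup generated by elements with `x ^ p = 1` is a `p`-group -/
theorem pgroup_of_hyp {G : Type} [Group G] [Finite G] (C : Set G) (k : ℕ)
    (hk : Subgroup.closure C ≤ Subgroup.upperCentralSeries G k) {p : ℕ} (hp : p.Prime)
    (hL : ∀ h ∈ C, h ^ p = 1) : IsPGroup p (Subgroup.closure C) := by
  have : Fact p.Prime := ⟨hp⟩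
  have hnil := hyp_tnil (Subgroup.closure C) k hk
  obtain ⟨S⟩ : Nonempty (Sylow p (Subgroup.closure C)) := inferInstance
  have h1 : Subgroup.closure C ≤ (S : Subgroup (Subgroup.closure C)).map (Subgroup.closure C).subtype := by
    refine (Subgroup.closure_le _).2 ?_
    intro h hh
    have hm : h ∈ Subgroup.closure C := Subgroup.subset_closure hh
    refine ⟨⟨h, hm⟩, nil_mem hnil hp S ⟨1, ?_⟩, rfl⟩
    rw [pow_one]
    exact Subtype.ext (hL h hh)
  intro x
  obtain ⟨y, hy, hyx⟩ := h1 x.2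
  have h2 : y = x := Subtype.ext hyx
  rw [← h2]
  obtain ⟨j, hj⟩ := S.isPGroup' ⟨y, hy⟩
  exact ⟨j, congrArg Subtype.val hj⟩

/-- a conjugation closed set of elements of exponent `p` which generates a hypercentral subgroup is in the class `LC p` -/
theorem lc_of_hyp {G : Type} [Group G] [Finite G] (C : Set G) (hcc : ∀ x ∈ C, ∀ g : G, g * x * g⁻¹ ∈ C)
    (k : ℕ) (hk : Subgroup.closure C ≤ Subgroup.upperCentralSeries G k) {p : ℕ} (hp : p.Prime)
    (hL : ∀ h ∈ C, h ^ p = 1) : H88.LB.LC p C := by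
  obtain ⟨D, hD⟩ : ∃ D, D = Subgroup.closure C := ⟨_, rfl⟩
  have hCD : C ⊆ D := by rw [hD]; exact Subgroup.subset_closure
  have hDn : D.Normal := hD ▸ closure_normal_of C hcc
  have hnor : ∀ g : G, g ∈ (Subgroup.normalizer (D : Set G) : Subgroup G) := fun g => by
    rw [Subgroup.normalizer_eq_top]
    exact Subgroup.mem_top g
  have hpg := pgroup_of_hyp C k hk hp hL
  rw [← hD] at hk hpg
  refine H88.LB.LC.loc C D ?_ (fun x hx => ⟨1, ?_⟩) (fun g hg => absurd (hnor g) hg) (fun x hx hx2 => ?_) ?_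
  · rw [Set.inter_eq_left.2 hCD]
    exact hD
  · rw [one_mul, inv_one, mul_one]
    exact hCD hx
  · have h1 : {z : G | ∃ g : G, g ∉ (Subgroup.normalizer (D : Set G) : Subgroup G) ∧
        ∃ y ∈ D, z = g * y * g⁻¹} = ∅ := by
      rw [Set.eq_empty_iff_forall_notMem]
      rintro z ⟨g, hg, -⟩
      exact hg (hnor g)
    rw [h1, Subgroup.closure_empty, Subgroup.mem_bot] at hx2
    exact hx2
  · refine H88.LB.SC.base _ _ k (fun x hx => ?_) ?_
    · rw [Subgroup.mem_subgroupOf] at hx
      exact ucs_sub _ k x (hk hx)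
    · exact hpg.comap_of_injective (Subgroup.normalizer (D : Set G)).subtype
        (Subgroup.subtype_injective _)

/-- the hypercentral case is in the class `MC` -/
theorem mc_of_hyp {n : ℕ} (hn : 2 ≤ n) (G : Subgroup (Equiv.Perm (Fin n)))
    (hG : MulAction.IsPretransitive G (Fin n)) (C : Set G) (hCL : C ⊆ H88.LB.Lst G) (hne : C.Nonempty)
    (hcc : ∀ x ∈ C, ∀ g : G, g * x * g⁻¹ ∈ C) (k : ℕ)
    (hk : Subgroup.closure C ≤ Subgroup.upperCentralSeries G k) : H51.K2.MC C := by
  obtain ⟨g₀, hg₀⟩ := hne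
  have hp := prime_of_least G g₀ (hCL hg₀).1 (hCL hg₀).2
  have hL : ∀ h ∈ C, h ^ orderOf g₀ = 1 := fun h hh => by
    rw [trgzc hn G hG C hCL k hk g₀ h hg₀ hh]
    exact pow_orderOf_eq_one h
  exact H51.K2.MC.loc C _ hp hL (lc_of_hyp C hcc k hk hp hL)

/-- the hypercentral case -/
theorem low_hyc (n : ℕ) (hn : 2 ≤ n) (G : Subgroup (Equiv.Perm (Fin n)))
    (hG : MulAction.IsPretransitive G (Fin n)) (C : Set G) (hCL : C ⊆ H88.LB.Lst G) (hne : C.Nonempty)
    (hcc : ∀ x ∈ C, ∀ g : G, g * x * g⁻¹ ∈ C)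
    (hpow : ∀ x ∈ C, ∀ j : ℕ, Nat.Coprime j (orderOf x) → x ^ j ∈ C) (k : ℕ)
    (hk : Subgroup.closure C ≤ Subgroup.upperCentralSeries G k) : LowC G C :=
  low_mcc n hn G hG C hCL hne hcc hpow (mc_of_hyp hn G hG C hCL hne hcc k hk)

end H71.CL
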