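import Pool.Agent.H51.K2.Thm
import Pool.Agent.H71.CL.Bas

/-!
# [H71 CL MCC] the lower bound for the class `MC` with a set `C` of elements of least index
-/

set_option autoImplicit false

open scoped Classical

noncomputable section

namespace H71.CL

open H88.LH H88.LB H38.ML.Spec H51.K2

/-- THEOREM K2 for `C`: `C` is a nonempty set of elements of least index, closed under conjugation and under powers prime to the
order, in the class `MC` -/
theorem low_mcc (n : ℕ) (hn : 2 ≤ n) (G : Subgroup (Equiv.Perm (Fin n)))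
    (hG : MulAction.IsPretransitive G (Fin n)) (C : Set G) (hCL : C ⊆ Lst G) (hne : C.Nonempty)
    (hcc : ∀ x ∈ C, ∀ g : G, g * x * g⁻¹ ∈ C)
    (hpow : ∀ x ∈ C, ∀ j : ℕ, Nat.Coprime j (orderOf x) → x ^ j ∈ C) (h : MC C) : LowC G C := by
  refine lowc_of_base1 n hn G hG C hCL hne hcc fun r hr g uni hI => ?_
  exact mc_base H51.OW.apm4x (fun _ hp => H35.UY.apu3u hp) H51.SN.stpf twob lfu h r hr g uni hI
    (fun x hx => H38.ML.prime_of_least G x (hCL hx).1 (hCL hx).2) hpow

end H71.CL
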